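import Pool.Agent.Y444.RP.Stm2

/-!
# RP2-LIM: extensions and limits of countable sequences (helper907)
-/

set_option autoImplicit false

namespace Pool.Agent.Y907.RP2

open Pool.Agent.Y444.RP

theorem le_trans' {W : Type} [LinearOrder W] {A B C : Nd W} (h1 : A.le B) (h2 : B.le C) :
    A.le C :=
  ⟨h1.1.trans h2.1, fun i hi => (h1.2 i hi).trans (h2.2 i (hi.trans_le h1.1))⟩

open Classical in
/-- Block LIM2 -/
theorem t : Lim2Stm := by
  intro W _ hW
  obtain ⟨-, -, hbd⟩ := hW
  refine ⟨fun A => ⟨le_rfl, fun _ _ => rfl⟩, fun A B C => le_trans', ?_, ?_⟩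
  · intro A v
    obtain ⟨b, hb⟩ := hbd (fun _ => A.len)
    have hb0 : A.len < b := hb 0
    refine ⟨⟨(b, Function.update A.val A.len v), ?_⟩, ⟨hb0.le, fun i hi => ?_⟩, ?_⟩
    · intro i hi
      have h1 : A.len < i := hb0.trans_le hi
      show Function.update A.val A.len v i = 0
      rw [Function.update_of_ne h1.ne']
      exact A.2 i h1.le
    · show A.val i = Function.update A.val A.len v i
      rw [Function.update_of_ne hi.ne]
    · intro C hC
      refine ⟨hb0.trans_le hC.1, ?_⟩
      have h1 := hC.2 A.len hb0
      rw [← h1]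
      show Function.update A.val A.len v A.len = v
      rw [Function.update_self]
  · intro A hA
    have hmono : ∀ m n, m ≤ n → (A m).le (A n) := by
      intro m n hmn
      induction n, hmn using Nat.le_induction with
      | base => exact ⟨le_rfl, fun _ _ => rfl⟩
      | succ n _ ih => exact le_trans' ih (hA n)
    have hcomp : ∀ m n i, i < (A m).len → i < (A n).len → (A m).val i = (A n).val i := by
      intro m n i hm hn
      rcases le_total m n with h | h
      · exact (hmono m n h).2 i hm
      · exact ((hmono n m h).2 i hn).symm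
    obtain ⟨b, hb⟩ := hbd (fun n => (A n).len)
    refine ⟨⟨(b, fun i => if h : ∃ n, i < (A n).len then (A h.choose).val i else 0), ?_⟩,
      fun n => ⟨(hb n).le, fun i hi => ?_⟩⟩
    · intro i hi
      exact dif_neg (by
        rintro ⟨n, hn⟩
        exact absurd (hn.trans (hb n)) (not_lt.2 hi))
    · have h : ∃ n, i < (A n).len := ⟨n, hi⟩
      show (A n).val i = if h : ∃ n, i < (A n).len then (A h.choose).val i else 0
      rw [dif_pos h]
      exact hcomp n _ i hi h.choose_spec

end Pool.Agent.Y907.RP2
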